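import Pool.Agent.Y472.H.Defs
import Pool.Agent.Y482.Ph.Defs

/-!
# Closed 3-braids with large exponents: expansions to all orders.  Statements

All numbers of full twists, absolute lower bound of the exponents: the parts G and H with
expansions in powers of `1 / N` (models: `Pool.Agent.Y482.Ph`, `Pool.Agent.W719.AX`).
-/

set_option autoImplicit false

namespace Pool.Agent.Y472

open Finset Filter Topology Metric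
open Pool.Agent.W711.HT
open Pool.Agent.Y481 (itI itN Sep wts cw)
open Pool.Agent.W719.AX (UX EXY)
open Pool.Agent.Y482.Ph (EXL GXc S_LOCN S_WX KXD3 S_EXP)
open scoped Real

/-! ### Continuation of expansions -/

/-- `X_N = e^(N G) (A_0 + A_1 / N + …)` on the open set `U` -/
structure GXo (U : Set ℂ) (X : ℕ → ℂ → ℂ) (G : ℂ → ℂ) (A : ℕ → ℂ → ℂ) : Prop where
  ux : UX (fun N χ => Complex.exp (-(N * G χ)) * X N χ) A U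
  an : ∀ k, DifferentiableOn ℂ (A k) U
  nz : ∀ χ ∈ U, A 0 χ ≠ 0

/-- CEX: an expansion on a small open subset of a connected open set on which the growth of the
modulus is known is valid on all relatively compact open subsets -/
def S_CEX : Prop := ∀ (U W : Set ℂ) (X : ℕ → ℂ → ℂ) (G : ℂ → ℂ) (A : ℕ → ℂ → ℂ), IsOpen U →
  IsConnected U → IsOpen W → W.Nonempty → W ⊆ U → (∀ N, DifferentiableOn ℂ (X N) U) →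
  DifferentiableOn ℂ G U → MW X G U → GXo W X G A →
  ∀ V : Set ℂ, IsOpen V → IsCompact (closure V) → closure V ⊆ U → ∃ A' : ℕ → ℂ → ℂ, GXo V X G A'

/-! ### The trace near `χ₀`, `k` fixed -/

/-- the expansion of `XN` near `χ = 0` for some lower bound of the exponents (the conclusion of
`Pool.Agent.Y482.Ph.S_XLX`) -/
def XLXc : Prop := ∃ (ρ₀ c C : ℝ) (s dl : ℂ → ℂ → ℂ → ℂ), SD3 ρ₀ c C s dl ∧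
  ∀ k : ℕ, 1 ≤ k → ∃ R c' : ℝ, 0 < R ∧ R ≤ 1 ∧ R ≤ ρ₀ ∧ 0 < c' ∧
    ∃ B C' M : ℝ, 0 < B ∧ 0 < C' ∧ 0 < M ∧ ∀ ls : List (ℤ × ℤ), ls.length = k →
      (∀ p ∈ ls, M ≤ |(p.1 : ℝ)| ∧ M ≤ |(p.2 : ℝ)|) →
      ∃ (G : ℂ → ℂ) (z : ℂ → ℕ → ℂ) (A : ℕ → ℂ → ℂ),
        DifferentiableOn ℂ G (Rc R R) ∧ (∀ χ ∈ Rc R R, G (-χ) = G χ) ∧
        (∀ χ ∈ Rc R R, ‖G χ‖ ≤ B ∧ (deriv (deriv G) χ).re ≤ -c' ∧ bet / 2 ≤ (G χ).re) ∧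
        GXc R (fun N χ => (N : ℂ) ^ (2 * k) * XN ls N χ) G A ∧
        (∀ χ ∈ Rc R R, (∀ j < 2 * k, z χ j ∈ Rc (R / 2) (R / 2) ∧ 0 < (z χ j).im ∧
            ‖z χ j‖ ≤ 1 / 10 ∧
          Complex.I * cw ls ((j + 1) % (2 * k)) * z χ ((j + 1) % (2 * k)) / (2 * π) + Complex.I +
            deriv (fun w => s (z χ j) w χ) (z χ ((j + 1) % (2 * k))) +
            deriv (fun w => s w (z χ (((j + 1) % (2 * k) + 1) % (2 * k))) χ)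
              (z χ ((j + 1) % (2 * k))) = 0) ∧
          deriv G χ = ∑ j ∈ range (2 * k), deriv (fun w => s (z χ j) (z χ ((j + 1) % (2 * k))) w) χ ∧
          G χ = ∑ j ∈ range (2 * k), (Complex.I * cw ls j * z χ j ^ 2 / (4 * π) +
            Complex.I * z χ j + s (z χ j) (z χ ((j + 1) % (2 * k))) χ)) ∧
        ∀ m : ℝ, (∀ p ∈ ls, m ≤ |(p.1 : ℝ)| ∧ m ≤ |(p.2 : ℝ)|) → 0 < m →
          ‖G 0 - ((4 * k * bet : ℝ) : ℂ)‖ ≤ C' / m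

/-- `XLZc` with the expansion -/
def XLZXc : Prop := ∀ (χ₀ : ℂ) (ρ₀ c C : ℝ), Zr χ₀ → bet ≤ (s0 χ₀).re → SDZ χ₀ ρ₀ c C szz dzz →
  ∀ k : ℕ, 1 ≤ k → ∃ R c' : ℝ, 0 < R ∧ R ≤ 1 ∧ R ≤ ρ₀ ∧ 0 < c' ∧
    ∃ B C' M : ℝ, 0 < B ∧ 0 < C' ∧ 0 < M ∧ ∀ ls : List (ℤ × ℤ), ls.length = k →
      (∀ p ∈ ls, M ≤ |(p.1 : ℝ)| ∧ M ≤ |(p.2 : ℝ)|) →
      ∃ (G : ℂ → ℂ) (z : ℂ → ℕ → ℂ) (A : ℕ → ℂ → ℂ),
        DifferentiableOn ℂ G (Rc R R) ∧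
        (∀ χ ∈ Rc R R, ‖G χ‖ ≤ B ∧ (deriv (deriv G) χ).re ≤ -c') ∧
        MW (fun N χ => XN ls N (χ + χ₀)) G (Rc R R) ∧
        GXo (Rc R R) (fun N χ => (N : ℂ) ^ (2 * k) * XN ls N (χ + χ₀)) G A ∧
        (∀ χ ∈ Rc R R, (∀ j < 2 * k, z χ j ∈ Rc (R / 2) (R / 2) ∧ 0 < (z χ j).im ∧
            ‖z χ j‖ ≤ 1 / 10 ∧
          Complex.I * cw ls ((j + 1) % (2 * k)) * z χ ((j + 1) % (2 * k)) / (2 * π) + Complex.I +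
            deriv (fun w => szz (z χ j) w (χ + χ₀)) (z χ ((j + 1) % (2 * k))) +
            deriv (fun w => szz w (z χ (((j + 1) % (2 * k) + 1) % (2 * k))) (χ + χ₀))
              (z χ ((j + 1) % (2 * k))) = 0) ∧
          deriv G χ = ∑ j ∈ range (2 * k),
            deriv (fun w => szz (z χ j) (z χ ((j + 1) % (2 * k))) w) (χ + χ₀) ∧
          G χ = ∑ j ∈ range (2 * k), (Complex.I * cw ls j * z χ j ^ 2 / (4 * π) +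
            Complex.I * z χ j + szz (z χ j) (z χ ((j + 1) % (2 * k))) (χ + χ₀))) ∧
        ∀ m : ℝ, (∀ p ∈ ls, m ≤ |(p.1 : ℝ)| ∧ m ≤ |(p.2 : ℝ)|) → 0 < m →
          (∀ χ ∈ Rc R R, ∀ j < 2 * k, ‖z χ j‖ ≤ C' / m) ∧
          ∀ χ ∈ Rc R R, ‖G χ - 2 * k * szz 0 0 (χ + χ₀)‖ ≤ C' / m

/-- PTZ: the path from `χ₀` to `i Im χ₀` and to `0` -/
def S_PTZ : Prop := S_S0P → ∀ χ₀ : ℂ, Zr χ₀ → bet ≤ (s0 χ₀).re → ∀ η : ℝ, 0 < η → η ≤ χ₀.im →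
  ∃ P : Set ℂ, IsCompact P ∧ IsConnected P ∧ χ₀ ∈ P ∧ (η * Complex.I : ℂ) ∈ P ∧
    ∀ χ ∈ P, Zr χ ∧ bet ≤ (s0 χ).re

/-- SZE: the two exponents agree -/
def S_SZE : Prop := ∀ (ρ₀ c C : ℝ) (s dl : ℂ → ℂ → ℂ → ℂ), SD3 ρ₀ c C s dl →
  ∀ (χ₀ : ℂ) (ρ₁ c₁ C₁ : ℝ), SDZ χ₀ ρ₁ c₁ C₁ szz dzz →
  ∀ ψ ψ' χ : ℂ, ψ ∈ Rc ρ₀ ρ₀ → ψ' ∈ Rc ρ₀ ρ₀ → χ ∈ Rc ρ₀ ρ₀ → ψ ∈ Rc ρ₁ ρ₁ → ψ' ∈ Rc ρ₁ ρ₁ →
  χ ∈ Rz χ₀ ρ₁ → s ψ ψ' χ = szz ψ ψ' χ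

/-- UQZ: small critical configurations for fixed `χ` are unique -/
def S_UQZ : Prop := ∀ (ρ C : ℝ), 0 < ρ → ∃ M : ℝ, 0 < M ∧ ∀ (n : ℕ) (σ : ℂ → ℂ → ℂ) (a : ℕ → ℤ)
  (z z' : ℕ → ℂ), 2 ≤ n →
  DifferentiableOn ℂ (fun p : ℂ × ℂ => σ p.1 p.2) (Rc ρ ρ ×ˢ Rc ρ ρ) →
  (∀ ψ ∈ Rc ρ ρ, ∀ ψ' ∈ Rc ρ ρ, ‖σ ψ ψ'‖ ≤ C) → (∀ j < n, M ≤ |(a j : ℝ)|) →
  (∀ j < n, z j ∈ Rc (ρ / 2) (ρ / 2) ∧ z' j ∈ Rc (ρ / 2) (ρ / 2) ∧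
    Complex.I * a ((j + 1) % n) * z ((j + 1) % n) / (2 * π) + Complex.I +
      deriv (fun w => σ (z j) w) (z ((j + 1) % n)) +
      deriv (fun w => σ w (z (((j + 1) % n + 1) % n))) (z ((j + 1) % n)) = 0 ∧
    Complex.I * a ((j + 1) % n) * z' ((j + 1) % n) / (2 * π) + Complex.I +
      deriv (fun w => σ (z' j) w) (z' ((j + 1) % n)) +
      deriv (fun w => σ w (z' (((j + 1) % n + 1) % n))) (z' ((j + 1) % n)) = 0) →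
  ∀ j < n, z j = z' j

/-- XPX: the expansion near `χ₀`, by continuation along a path from `0` to `χ₀` -/
def S_XPX : Prop := S_CEX → S_PTZ → S_SZE → S_UQZ → S_S0P →
  (∀ χ₀ : ℂ, Zr χ₀ → ∃ ρ₀ c C : ℝ, SDZ χ₀ ρ₀ c C szz dzz) → XLZc → XLXc → XLZXc

/-! ### The trace in the upper half plane near `0`, absolute constants -/

/-- the set of configurations with `L` variables in a box, and the variable number `L` in `K` -/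
def BK (L : ℕ) (r : ℝ) (K : Set ℂ) : Set (ℕ → ℂ) := {ψ | (∀ i < L, ψ i ∈ Rc r r) ∧ ψ L ∈ K}

/-- expansions of functions of `L` variables in a box, and a further variable in `K` -/
def EXK (L : ℕ) (r : ℝ) (K : Set ℂ) (f : ℕ → (ℕ → ℂ) → ℂ) (Φ : (ℕ → ℂ) → ℂ) : Prop :=
  ∃ (A : ℕ → (ℕ → ℂ) → ℂ) (c₁ : ℝ), 0 < c₁ ∧
    UX (fun N ψ => Complex.exp (-(N * Φ ψ)) * f N ψ) A (BK L r K) ∧
    (∀ ψ ∈ BK L r K, c₁ ≤ ‖A 0 ψ‖) ∧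
    ∀ k, ∀ ψ ∈ BK L r K, ∀ i < L, DifferentiableOn ℂ (fun w => A k (Function.update ψ i w)) (Rc r r)

/-- ELK: elimination of the variables number `0, …, j - 1`, with expansions, absolute constants and
a parameter `χ ∈ K`, which is the variable number `L` of the functions `f N` -/
def S_ELK : Prop := S_LOCN → ∀ (R c B p₀ C : ℝ), 0 < C → ∃ M : ℝ, 0 < M ∧
  ∀ (L : ℕ) (B' : ℝ) (K : Set ℂ) (S : ℂ → (ℕ → ℂ) → ℂ) (D : ℂ → ℕ → (ℕ → ℂ) → ℂ), IsCompact K →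
    (∀ χ ∈ K, PotA L R c B p₀ B' (S χ) (D χ)) →
    ContinuousOn (fun x : ℂ × (Fin L → ℂ) => S x.1 (ex L x.2)) (K ×ˢ bx L R) →
    (∀ j < L, ContinuousOn (fun x : ℂ × (Fin L → ℂ) => D x.1 j (ex L x.2)) (K ×ˢ bx L R)) →
    ∀ a : ℕ → ℤ, (∀ j < L, M ≤ |(a j : ℝ)|) → ∀ zz : ℂ → ℕ → (ℕ → ℂ) → ℕ → ℂ,
    (∀ χ ∈ K, Crt L R c B' (p₀ * L) C (S χ) (D χ) a (zz χ)) →
    ∀ f : ℕ → (ℕ → ℂ) → ℂ, (∀ N, Sep (L + 1) (f N)) →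
      (∀ r : ℝ, 0 < r → r < R / 2 → EXK L r K f (fun ψ => S (ψ L) ψ)) →
      ∀ j ≤ L, ∀ r : ℝ, 0 < r → r < R / 2 →
        EXK L r K (fun N ψ => (Real.sqrt N : ℂ) ^ j * (-1) ^ (N * j) *
          itN (fun _ => R / 8) a N j (f N) ψ) (fun ψ => Uj (S (ψ L)) a j (zz (ψ L) j ψ))

/-- `XFAc` with the expansion -/
def XFAXc (ρ₀ : ℝ) (s : ℂ → ℂ → ℂ → ℂ) : Prop :=
  ∃ R c₂ B₂ C' M : ℝ, 0 < R ∧ R ≤ 1 ∧ R ≤ ρ₀ ∧ 0 < c₂ ∧ 0 < B₂ ∧ 0 < C' ∧ 0 < M ∧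
  ∀ k : ℕ, 1 ≤ k → ∀ ls : List (ℤ × ℤ), ls.length = k →
    (∀ p ∈ ls, M ≤ |(p.1 : ℝ)| ∧ M ≤ |(p.2 : ℝ)|) → ∃ (G : ℂ → ℂ) (z : ℂ → ℕ → ℂ),
      DifferentiableOn ℂ G (Rc R R) ∧
      (∀ χ ∈ Rc R R, G (-χ) = G χ ∧ (deriv (deriv G) χ).re ≤ -(c₂ * k) ∧
        ‖deriv (deriv G) χ‖ ≤ B₂ * k) ∧
      (∀ K : Set ℂ, IsCompact K → K ⊆ Rc R R → (∀ χ ∈ K, 0 < χ.im) → MW (XF ls) G K ∧
        ∃ A : ℕ → ℂ → ℂ, UX (fun N χ => Complex.exp (-(N * G χ)) *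
          ((N : ℂ) ^ (2 * k) * XF ls N χ)) A K ∧ ∀ χ ∈ K, A 0 χ ≠ 0) ∧
      (∀ χ ∈ Rc R R, (∀ j < 2 * k, z χ j ∈ Rc ρ₀ ρ₀ ∧ 0 < (z χ j).im ∧ ‖z χ j‖ ≤ 1 / 10 ∧
        Complex.I * cw ls ((j + 1) % (2 * k)) * z χ ((j + 1) % (2 * k)) / (2 * π) + Complex.I +
          deriv (fun w => s (z χ j) w χ) (z χ ((j + 1) % (2 * k))) +
          deriv (fun w => s w (z χ (((j + 1) % (2 * k) + 1) % (2 * k))) χ)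
            (z χ ((j + 1) % (2 * k))) = 0) ∧
        deriv G χ = ∑ j ∈ range (2 * k), deriv (fun w => s (z χ j) (z χ ((j + 1) % (2 * k))) w) χ ∧
        G χ = ∑ j ∈ range (2 * k), (Complex.I * cw ls j * z χ j ^ 2 / (4 * π) +
          Complex.I * z χ j + s (z χ j) (z χ ((j + 1) % (2 * k))) χ)) ∧
      ∀ m : ℝ, (∀ p ∈ ls, m ≤ |(p.1 : ℝ)| ∧ m ≤ |(p.2 : ℝ)|) → 0 < m → ∀ χ ∈ Rc R R,
        ‖G χ - 2 * k * s 0 0 χ‖ ≤ C' * k / m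

/-- XFAX: `S_XFA` with the expansion -/
def S_XFAX : Prop := S_POTA → S_CRA → S_ELA → S_FRD → S_GPA → S_KFF → KRZc → S_KB3 → S_MWK3 →
  S_LOCN → S_ELK → S_WX → ∀ (ρ₀ c C : ℝ) (s dl : ℂ → ℂ → ℂ → ℂ), SD3 ρ₀ c C s dl →
  (∃ (ρ₂ : ℝ) (A : ℕ → ℂ × ℂ × ℂ → ℂ), ρ₂ ≤ ρ₀ ∧ KXD3 ρ₂ s A) → XFAXc ρ₀ s

/-! ### The variable of the axis -/

/-- CIZX: `S_CIZ` with the expansion -/
def S_CIZX : Prop := ∀ (m : ℤ) (χ₀ z : ℂ) (R c κ V : ℝ) (X : ℕ → ℂ → ℂ) (G : ℂ → ℂ)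
  (A : ℕ → ℂ → ℂ), 0 < R → R ≤ 1 →
  R < χ₀.im → |χ₀.re| + R < 2 → 0 < c → 0 < κ → (∀ N, Differentiable ℂ (X N)) →
  (∀ N w, X N (-w) = X N w) → DifferentiableOn ℂ G (Rc R R) →
  (∀ w ∈ Rc R R, (deriv (deriv G) w).re ≤ -c) → MW (fun N w => X N (w + χ₀)) G (Rc R R) →
  GXo (Rc R R) (fun N w => X N (w + χ₀)) G A →
  z ∈ Rc (R / 4) (R / 4) → Complex.I * m * (χ₀ + z) / π + Complex.I + deriv G z = 0 →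
  V = (Complex.I * m * (χ₀ + z) ^ 2 / (2 * π) + Complex.I * (χ₀ + z) + G z).re →
  (∀ᶠ N : ℕ in atTop, ∀ x : ℝ, |x| ≤ 2 * π / 3 → R / 2 ≤ |x - χ₀.re| →
    ‖wE N m (x + (χ₀ + z).im * Complex.I) * X N (x + (χ₀ + z).im * Complex.I)‖ ≤
      Real.exp (N * (V + (χ₀ + z).im - κ))) →
  (∀ᶠ N : ℕ in atTop, ∀ y : ℝ, 0 ≤ y → y ≤ (χ₀ + z).im → ∀ σ : ℝ, |σ| = 1 →
    ‖wE N m (σ * RN N + y * Complex.I) * X N (σ * RN N + y * Complex.I)‖ ≤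
      Real.exp (N * (V + y - κ))) →
  ∃ y : ℕ → ℂ, y 0 ≠ 0 ∧ EXY (fun N => ∑ p ∈ Ioo (-((N / 3 : ℕ) : ℤ)) ((N / 3 : ℕ) : ℤ),
    deriv (fun χ => wE N m χ * X N χ) (2 * π * p / N))
    (Complex.I * m * (χ₀ + z) ^ 2 / (2 * π) + Complex.I * (χ₀ + z) + G z) y

/-! ### Assembly -/

/-- MXZ: the expansion, `k` and `m` fixed -/
def S_MXZ : Prop := ∀ (k : ℕ) (m : ℤ), 1 ≤ k → 0 ≤ m → ¬ (k = 1 ∧ m = 0) →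
  ∃ (χ₀ : ℂ) (ρ₀ c C : ℝ), Zr χ₀ ∧ SDZ χ₀ ρ₀ c C szz dzz ∧ ∀ ε : ℝ, 0 < ε → ∃ M : ℝ,
    ∀ ls : List (ℤ × ℤ), ls.length = k → (∀ p ∈ ls, M ≤ |(p.1 : ℝ)| ∧ M ≤ |(p.2 : ℝ)|) →
    ∃ (z : ℕ → ℂ) (χ : ℂ) (y : ℕ → ℂ), RCritZ szz χ₀ ρ₀ (2 * k) (cw ls) m z χ ∧
      (∀ j < 2 * k, ‖z j‖ ≤ ε) ∧ ‖χ - χ₀‖ ≤ ε ∧ y 0 ≠ 0 ∧
      EXY (fun N => Pool.Agent.H550R3.Jones.cjones N 2 (ftw m ++ bw ls) (vN N))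
        (RVal3 szz (2 * k) (cw ls) m z χ - π * Complex.I / 4 * (wts ls).sum) y

/-- MXN: the expansion for many twist regions, absolute lower bound of the exponents -/
def S_MXN : Prop := ∃ (ρ₀ c C : ℝ) (s dl : ℂ → ℂ → ℂ → ℂ), SD3 ρ₀ c C s dl ∧
  ∃ (K : ℕ) (M : ℝ), ∀ k : ℕ, K ≤ k → ∀ (ls : List (ℤ × ℤ)) (m : ℤ), ls.length = k →
    (∀ p ∈ ls, M ≤ |(p.1 : ℝ)| ∧ M ≤ |(p.2 : ℝ)|) →
    ∃ (z : ℕ → ℂ) (χ : ℂ) (y : ℕ → ℂ), ‖χ‖ < 1 / 10 ∧ RCrit3 s ρ₀ (2 * k) (cw ls) m z χ ∧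
      y 0 ≠ 0 ∧ EXY (fun N => Pool.Agent.H550R3.Jones.cjones N 2 (ftw m ++ bw ls) (vN N))
        (RVal3 s (2 * k) (cw ls) m z χ - π * Complex.I / 4 * (wts ls).sum) y

/-- MIRX: mirror images have complex conjugate coloured Jones polynomials -/
def S_MIRX : Prop := ∀ (N : ℕ) (ls : List (ℤ × ℤ)) (m : ℤ), 2 ≤ N → ls ≠ [] →
  Pool.Agent.H550R3.Jones.cjones N 2 (ftw (-m) ++ bw (ls.map fun p => (-p.1, -p.2))) (vN N) =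
    (starRingEnd ℂ) (Pool.Agent.H550R3.Jones.cjones N 2 (ftw m ++ bw ls) (vN N))

end Pool.Agent.Y472
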