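import Pool.Agent.Y472.J.Mx
import Pool.Agent.Y482.Cv.FinZ
import Pool.Agent.Y290.CJ.XPX
import Pool.Agent.Y833.CJ.Xfaq

/-!
# Closed 3-braids with large exponents: expansions and complex volume

`mxz`, `mxn` are the expansions of the coloured Jones polynomials at the root of unity
(statements `S_MXZ`, `S_MXN` of `Pool.Agent.Y472.J.Defs`), with an absolute constant;
`cx` adds the complex volume.
-/

set_option autoImplicit false

namespace Pool.Agent.Y472.J

open Pool.Agent.Y472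

theorem mxz : S_MXZ := mxz_of Pool.Agent.Y290.CJ.xpx

theorem mxn : S_MXN := mxn_of Pool.Agent.Y833.CJ.xfaq

theorem cx : ∃ M : ℝ, ∀ (ls : List (ℤ × ℤ)) (m : ℕ), ls ≠ [] →
    ¬ (ls.length = 1 ∧ m = 0) → Pool.Agent.Y472.H.Lg' M ls → Pool.Agent.Y482.Cv.Cx ls m :=
  Pool.Agent.Y482.Cv.cxAbs Pool.Agent.Y710.CG.s0p mxz mxn

end Pool.Agent.Y472.J
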