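import Pool.Agent.Y472.J.Defs

/-!
# Elimination with expansions, absolute constants and a parameter (corrected statements)

The parameter is a point of a compact metric space `E`; the functions need not be analytic in it.
-/

set_option autoImplicit false

namespace Pool.Agent.Y472

open Finset Filter Topology Metric
open Pool.Agent.W711.HT
open Pool.Agent.Y481 (itI itN Sep wts cw)
open Pool.Agent.W719.AX (UX EXY)
open Pool.Agent.Y482.Ph (EXL GXc S_LOCN S_WX KXD3 S_EXP)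
open scoped Real

/-- expansions of functions of `L` variables in a box, with a parameter -/
def EXQ (E : Type) (L : ℕ) (r : ℝ) (f : ℕ → E → (ℕ → ℂ) → ℂ) (Φ : E → (ℕ → ℂ) → ℂ) : Prop :=
  ∃ (A : ℕ → E × (ℕ → ℂ) → ℂ) (c₁ : ℝ), 0 < c₁ ∧
    UX (fun N p => Complex.exp (-(N * Φ p.1 p.2)) * f N p.1 p.2) A (Set.univ ×ˢ Bx L r) ∧
    (∀ p ∈ (Set.univ : Set E) ×ˢ Bx L r, c₁ ≤ ‖A 0 p‖) ∧
    ∀ k, ∀ e : E, ∀ ψ ∈ Bx L r, ∀ i < L,
      DifferentiableOn ℂ (fun w => A k (e, Function.update ψ i w)) (Rc r r)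

/-- ELQ: elimination of the variables number `0, …, j - 1`, with expansions, absolute constants and
a parameter in a compact metric space -/
def S_ELQ : Prop := S_LOCN → ∀ (R c B p₀ C : ℝ), 0 < C → ∃ M : ℝ, 0 < M ∧
  ∀ (E : Type) [MetricSpace E] [CompactSpace E] (L : ℕ) (B' : ℝ) (S : E → (ℕ → ℂ) → ℂ)
    (D : E → ℕ → (ℕ → ℂ) → ℂ), (∀ e, PotA L R c B p₀ B' (S e) (D e)) →
    ContinuousOn (fun x : E × (Fin L → ℂ) => S x.1 (ex L x.2)) (Set.univ ×ˢ bx L R) →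
    (∀ j < L, ContinuousOn (fun x : E × (Fin L → ℂ) => D x.1 j (ex L x.2))
      (Set.univ ×ˢ bx L R)) →
    ∀ a : ℕ → ℤ, (∀ j < L, M ≤ |(a j : ℝ)|) → ∀ zz : E → ℕ → (ℕ → ℂ) → ℕ → ℂ,
    (∀ e, Crt L R c B' (p₀ * L) C (S e) (D e) a (zz e)) →
    ∀ f : ℕ → E → (ℕ → ℂ) → ℂ, (∀ᶠ N : ℕ in atTop, ∀ e, Sep L (f N e)) →
      (∀ᶠ N : ℕ in atTop, Continuous fun x : E × (Fin L → ℂ) => f N x.1 (ex L x.2)) →
      (∀ r : ℝ, 0 < r → r < R / 2 → EXQ E L r f S) →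
      ∀ j ≤ L, ∀ r : ℝ, 0 < r → r < R / 2 →
        EXQ E L r (fun N e ψ => (Real.sqrt N : ℂ) ^ j * (-1) ^ (N * j) *
          itN (fun _ => R / 8) a N j (f N e) ψ) (fun e ψ => Uj (S e) a j (zz e j ψ))

/-- XFAX: `S_XFA` with the expansion -/
def S_XFAQ : Prop := S_POTA → S_CRA → S_ELA → S_FRD → S_GPA → S_KFF → KRZc → S_KB3 → S_MWK3 →
  S_LOCN → S_ELQ → S_WX → ∀ (ρ₀ c C : ℝ) (s dl : ℂ → ℂ → ℂ → ℂ), SD3 ρ₀ c C s dl →
  (∃ (ρ₂ : ℝ) (A : ℕ → ℂ × ℂ × ℂ → ℂ), ρ₂ ≤ ρ₀ ∧ KXD3 ρ₂ s A) → XFAXc ρ₀ s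

end Pool.Agent.Y472
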