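import Pool.Agent.Y472.G.GrowthZ0
import Pool.Agent.Y472.H.GrowthA0
import Pool.Agent.Y472.J.Defs2
import Pool.Agent.Y482.Ph.Fin
import Pool.Agent.Y833.CJ.MXN
import Pool.Agent.Y710.CJ.MXZ
import Pool.Agent.Y914.CJ.Cex
import Pool.Agent.Y929.CJ.Small
import Pool.Agent.Y472.CJ.Elq
import Pool.Agent.Y472.CJ.Cizx

/-!
# Closed 3-braids: assembly of the expansions
-/

set_option autoImplicit false

namespace Pool.Agent.Y472.J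

open Finset Filter Topology Metric
open Pool.Agent.W711.HT
open Pool.Agent.Y472 Pool.Agent.Y421.CG
open Pool.Agent.Y481 (cw)
open Pool.Agent.Y482.Ph
open Pool.Agent.Y852.PH.MX (kxd_of xlxc_of)
open scoped Real

/-- the expansion of the kernel -/
theorem kxd : ∀ (ρ₀ c C : ℝ) (s dl : ℂ → ℂ → ℂ → ℂ), SD3 ρ₀ c C s dl →
    ∃ (ρ₂ : ℝ) (A : ℕ → ℂ × ℂ × ℂ → ℂ), ρ₂ ≤ ρ₀ ∧ KXD3 ρ₂ s A :=
  kxd_of Pool.Agent.Y419.PH.kxc3 Pool.Agent.Y304.PH.kxr3 Pool.Agent.Y814.PH.Emt.emt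
    Pool.Agent.Y852.PH.KLog3.klog3

theorem xlxc : XLXc := by
  obtain ⟨ρ₀, c, C, s, dl, hS⟩ := Pool.Agent.Y641.CB.sd3
  exact ⟨ρ₀, c, C, s, dl, hS, xlxc_of Pool.Agent.Y304.PH.xlx Pool.Agent.Y710.PH.wx
    Pool.Agent.Y784.PH.elx Pool.Agent.Y710.PH.locn kxd ρ₀ c C s dl hS⟩

/-- many twist regions -/
theorem mxn_of (h : S_XFAQ) : S_MXN := by
  have hRHO : S_RHO := Pool.Agent.Y105.CB.rho
  have hTB0 : S_TB0 := Pool.Agent.Y288.CB.tb0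
  have hKB3 : S_KB3 := Pool.Agent.Y288.CB.kb3 hTB0 hRHO
  have hRY : S_RHOY := Pool.Agent.Y317.CB.rhoy
  have hTY : S_TBY := Pool.Agent.Y46.CB.tby
  have hS0 : S_S0P := Pool.Agent.Y710.CG.s0p
  have hKB : KBZc := Pool.Agent.Y68.CG.kbz Pool.Agent.Y238.CG.pf Pool.Agent.Y125.CG.cnb
    Pool.Agent.Y991.CG.lmi
  have hKR : KRZc := Pool.Agent.Y37.CG.krz hTB0 hTY hRHO hRY
  obtain ⟨ρ₀, c, C, s, dl, hS⟩ := Pool.Agent.Y641.CB.sd3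
  have hb := Pool.Agent.Y761.CG.bet_ge
  exact Pool.Agent.Y833.CJ.mxn (by linarith) Pool.Agent.Y814.PH.exp_formula
    (fazc_of Pool.Agent.Y280.CG.faz hKB hKR
      (Pool.Agent.Y252.CG.kaz hTB0 hRHO Pool.Agent.Y252.CG.rhoa) Pool.Agent.Y691.CG.tfb
      Pool.Agent.Y691.CG.kff Pool.Agent.Y590.CB.kf hS0)
    (thzc_of Pool.Agent.Y79.CG.thz hTB0 hRHO Pool.Agent.Y79.CG.rhot)
    Pool.Agent.Y472.CJ.cizx hS0 hS
    (h Pool.Agent.Y484.CH.pota Pool.Agent.Y68.CH.cra Pool.Agent.Y472.H.ela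
      Pool.Agent.Y86.CH.frd Pool.Agent.Y508.CH.gpa Pool.Agent.Y691.CG.kff hKR hKB3
      Pool.Agent.Y967.CB.MW.mwk3 Pool.Agent.Y710.PH.locn Pool.Agent.Y472.CJ.elq
      Pool.Agent.Y710.PH.wx ρ₀ c C s dl hS (kxd ρ₀ c C s dl hS))

/-- `k` and `m` fixed -/
theorem mxz_of (h : S_XPX) : S_MXZ := by
  have hRHO : S_RHO := Pool.Agent.Y105.CB.rho
  have hTB0 : S_TB0 := Pool.Agent.Y288.CB.tb0
  have hRY : S_RHOY := Pool.Agent.Y317.CB.rhoy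
  have hTY : S_TBY := Pool.Agent.Y46.CB.tby
  have hS0 : S_S0P := Pool.Agent.Y710.CG.s0p
  have hKB : KBZc := Pool.Agent.Y68.CG.kbz Pool.Agent.Y238.CG.pf Pool.Agent.Y125.CG.cnb
    Pool.Agent.Y991.CG.lmi
  have hSDc := Pool.Agent.Y641.CG.sdz hS0
  have hLOc : LOZc := Pool.Agent.Y319.CG.loz Pool.Agent.Y238.CG.pf Pool.Agent.Y954.CG.mpz
    Pool.Agent.Y125.CG.cnb Pool.Agent.Y991.CG.lmi hS0 hSDc
  have hMWc : MWZc := Pool.Agent.Y232.CG.mwz hKB hLOc hSDc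
  have hXLZ : XLZc := Pool.Agent.Y674.CG.xlz Pool.Agent.Y240.CG.potz Pool.Agent.Y784.CBE.cre
    Pool.Agent.Y232.CBE.ele hMWc hKB
  exact Pool.Agent.Y710.CJ.mxz Pool.Agent.Y481.bet_pos Pool.Agent.Y814.PH.exp_formula
    Pool.Agent.Y590.CB.kf
    (fazc_of Pool.Agent.Y280.CG.faz hKB (Pool.Agent.Y37.CG.krz hTB0 hTY hRHO hRY)
      (Pool.Agent.Y252.CG.kaz hTB0 hRHO Pool.Agent.Y252.CG.rhoa) Pool.Agent.Y691.CG.tfb
      Pool.Agent.Y691.CG.kff Pool.Agent.Y590.CB.kf hS0)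
    (thzc_of Pool.Agent.Y79.CG.thz hTB0 hRHO Pool.Agent.Y79.CG.rhot)
    (h Pool.Agent.Y914.CJ.cex Pool.Agent.Y929.CJ.ptz Pool.Agent.Y929.CJ.sze
      Pool.Agent.Y929.CJ.uqz hS0 hSDc hXLZ xlxc)
    Pool.Agent.Y472.CJ.cizx (cszc_of Pool.Agent.Y761.CG.csz hS0)
    (ctzc_of Pool.Agent.Y25.CG.ctz hS0) hS0 hSDc

end Pool.Agent.Y472.J
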